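import Pool.Agent.W2helper70.GI.Lim
import Pool.Agent.W2helper70.GI.FamSharp

set_option autoImplicit false

/-!
# The largest gaps along a sequence of indices in the Cramér–Granville model

Let `M ≥ 1` be a modulus and `κ > 0`. The random set `R` consists of the numbers `m` coprime to `M` which are
kept, where `m` is kept with probability `min (1, κ / log m)` (never for `m = 0, 1`), independently for all
`m`. For `M = κ = 1` this is Cramér's model of the primes, for `κ = M / φ(M)` it is corrected for the
primes which divide `M` (Granville). Let `P 1 < P 2 < …` be the elements of `R` and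
`gap j = P (j + 1) - P j`. Let `L = M / (κ φ(M))`; in the two models just mentioned `L = 1`.

1. Let `a 1 < a 2 < …` be a sequence of indices with `log (a k) / log (a (k / 2)) → 1`, for instance the
   values of a polynomial or `a k = k + ⌊exp ((log k) ^ C)⌋`. Almost surely the largest of
   `gap (a 1), …, gap (a k)` is asymptotic to `L log k log (a k)`.
2. If only `log (a k) ≤ D log (a (k / 2))` for all large `k`, it is almost surely between
   `(1 - ε) L / D log k log (a k)` and `(1 + ε) L log k log (a k)` for all large `k`.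
3. So if `log log k / log log (a k) → θ`, the growth exponent of the largest gap, as a function of `a k`
   on the logarithmic scale, is `1 + θ`. It is `2`, as in Q1, not only for the sequence of all indices but also for
   all sequences which grow polynomially, and it can be any number in `(1, 2]` for sparser sequences, for instance
   `1 + θ` for `a k = k + ⌊exp ((log k) ^ (1 / θ))⌋`, `0 < θ ≤ 1`.
4. Let `A, B, σ < τ` be given and, for every `n`, sets `I n t` of indices. Almost surely, for all large `n` and all
   `t < exp (n ^ σ)`, if `I n t` has at least `n ^ τ` elements, all of them between `n ^ (1 / A)` and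
   `n ^ B`, then it contains an index `j` with `gap j ≥ (1 - ε) (τ - σ) / A * L (log n) ^ 2`.

Nothing is claimed about the primes.

Proof. The index of an element depends on all smaller elements. Given the elements up to `P j`, the next gap is
larger than `g` with a conditional probability which, by the number of the integers coprime to `M` in a window, is
`exp (- (1 + o(1)) g / (L log P j))` uniformly in the relevant ranges, and almost surely
`log P j = (1 + o(1)) log j`; the event that the gap is at most `g` is known when `P (j + 1)` is known. So the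
probability that all gaps with indices in a set are at most `g` is bounded by a product (`all_small`), and
Borel–Cantelli applies.
-/

namespace Pool.Agent.Results.MP_7b323f_nt.GapsAlongIndices

open MeasureTheory Filter
open scoped Topology
open Pool.Agent.W2helper70.CG Pool.Agent.W2helper70.GI

theorem result (κ : ℝ) (hκ : 0 < κ) (M : ℕ) (hM : 0 < M) :
    (∀ a : ℕ → ℕ, StrictMono a →
      -- 1. the asymptotic formula for the largest gap along `a`
      (Tendsto (fun k : ℕ => Real.log (a k) / Real.log (a (k / 2))) atTop (𝓝 1) →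
        ∀ᵐ ω ∂(law κ), Tendsto (fun k : ℕ => (maxGap M ω a k : ℝ) / (Real.log k * Real.log (a k))) atTop
          (𝓝 (M / (κ * M.totient)))) ∧
      ∀ D : ℝ, 0 < D → (∀ᶠ k : ℕ in atTop, Real.log (a k) ≤ D * Real.log (a (k / 2))) →
        -- 2. bounds for sparser sequences
        (∀ ε : ℝ, 0 < ε → ε < 1 → ∀ᵐ ω ∂(law κ), ∀ᶠ k : ℕ in atTop,
          (1 - ε) / D * (M / (κ * M.totient)) * Real.log k * Real.log (a k) ≤ maxGap M ω a k ∧
          (maxGap M ω a k : ℝ) ≤ (1 + ε) * (M / (κ * M.totient)) * Real.log k * Real.log (a k)) ∧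
        -- 3. the growth exponent
        ∀ θ : ℝ, Tendsto (fun k : ℕ => Real.log (Real.log k) / Real.log (Real.log (a k))) atTop (𝓝 θ) →
          ∀ᵐ ω ∂(law κ), Tendsto (fun k : ℕ => Real.log (maxGap M ω a k) / Real.log (Real.log (a k))) atTop
            (𝓝 (1 + θ))) ∧
    -- 4. large gaps in prescribed sets of indices
    (∀ (A B : ℕ) (σ τ ε : ℝ), 0 < A → 0 < σ → σ < τ → 0 < ε → ε < 1 → ∀ I : ℕ → ℕ → Finset ℕ,
      ∀ᵐ ω ∂(law κ), ∀ᶠ n : ℕ in atTop, ∀ t : ℕ, (t : ℝ) < Real.exp ((n : ℝ) ^ σ) →
        (∀ j ∈ I n t, n ≤ j ^ A ∧ j ≤ n ^ B) → (n : ℝ) ^ τ ≤ (I n t).card →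
        ∃ j ∈ I n t, (1 - ε) * (τ - σ) / A * (M / (κ * M.totient)) * Real.log n ^ 2 ≤ gap M ω j) := by
  have hMr : (0 : ℝ) < M := by exact_mod_cast hM
  have hφr : (0 : ℝ) < M.totient := by exact_mod_cast Nat.totient_pos.2 hM
  have key : ∀ a : ℕ → ℕ, StrictMono a → ∀ D : ℝ, 0 < D →
      (∀ᶠ k : ℕ in atTop, Real.log (a k) ≤ D * Real.log (a (k / 2))) →
      ∀ ε : ℝ, 0 < ε → ε < 1 → ∀ᵐ ω ∂(law κ), ∀ᶠ k : ℕ in atTop,
        (1 - ε) / D * (M / (κ * M.totient)) * Real.log k * Real.log (a k) ≤ maxGap M ω a k ∧
        (maxGap M ω a k : ℝ) ≤ (1 + ε) * (M / (κ * M.totient)) * Real.log k * Real.log (a k) := by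
    intro a ha D hD haD ε hε hε1
    filter_upwards [up_max hκ hM ha hε hε1.le, lo_max hκ hM hD ha haD hε hε1] with ω h1 h2
    filter_upwards [h1, h2] with k h3 h4
    exact ⟨h4, h3⟩
  refine ⟨fun a ha => ⟨fun hr => lim_max hκ hM ha hr, fun D hD haD => ⟨key a ha D hD haD, fun θ hθ => ?_⟩⟩,
    fun A B σ τ ε hA hσ hστ hε hε1 I => families_sharp hκ hM hA B hσ hστ hε hε1 I⟩
  filter_upwards [key a ha D hD haD (1 / 2) (by norm_num) (by norm_num)] with ω hω
  exact expo_of_bounds (c := (1 - 1 / 2) / D * (M / (κ * M.totient))) (C := (1 + 1 / 2) * (M / (κ * M.totient)))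
    (by positivity) (by positivity) ha.id_le hω hθ

end Pool.Agent.Results.MP_7b323f_nt.GapsAlongIndices
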