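import Pool.Agent.W2helper60.RG.Final
import Pool.Agent.H442R2.KF.Weil

set_option autoImplicit false

/-!
# Pseudorandom sets of residues meet record prime gaps

Let `f(x) = log x (log₂ x)² log₄ x / (log₃ x)²`, the order of the largest known gaps between primes up
to `x`.  Let `v(a)`, `a ∈ s`, be a finite family of points of `[0, m) ^ k` with integer coordinates such
that all the exponential sums `∑ e(h · v(a) / m)`, `h` not divisible by `m`, are at most `|s| m ^ (-δ)`.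
We show that in every box of volume at least `m ^ (k - δ + ε)` at least the proportion `m ^ (-ε)` of the
expected number of the members of the family is such that no prime number lies within `κ f(m)` of any of
the coordinates of the point, nor of any monomial with coprime exponents `≤ K` in the coordinates.  Here
`κ > 0` depends only on `k`, `K`, `δ`, `ε`; the modulus `m` and the family are arbitrary.

Corollary (`modular_hyperbola`, with Weil's bound for Kloosterman sums): let `p` be a large prime number,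
`c` not divisible by `p`, `I` and `J` intervals in `[0, p)` with `|I| |J| ≥ p ^ (3/2 + ε)`.  Then at least
`|I| |J| p ^ (-1-ε)` pairs `(a, b)` in `I × J` satisfy `a b ≡ c (mod p)` and no prime lies within `κ f(p)`
of `a`, of `b`, of `a b` and of the other monomials.  (The number of all pairs with `a b ≡ c` is about
`|I| |J| / p`.)  In particular every residue class `c ≠ 0` modulo `p` is a product of two integers in the
middle of record gaps.

Proof.  The indicator function of the integers of an interval in a residue class modulo `q` has Fourier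
coefficients modulo `m` whose absolute values have the sum `O(q log m)`; so the members of the family in
the box are well distributed modulo all the integers `q ≤ m ^ η`.  Then the record covering sieve (helper256
and team; in several variables helper837; for families of vectors helper542) applies to the members
which are not good.
-/

namespace Pool.Agent.Results.MP_7b323f_nt.PseudorandomResidues

open Finset Filter

open scoped Classical

/-- `f(x) = log x (log₂ x)² log₄ x / (log₃ x)²` (iterated natural logarithms) -/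
noncomputable def f (x : ℝ) : ℝ :=
  Real.log x * (Real.log (Real.log x)) ^ 2 * Real.log (Real.log (Real.log (Real.log x))) /
    (Real.log (Real.log (Real.log x))) ^ 2

/-- No prime number is within `ρ` of a monomial with coprime exponents `≤ K` in the coordinates of `v`
(for `K ≥ 1` in particular of a coordinate). -/
def FarFromPrimes {k : ℕ} (K : ℕ) (ρ : ℝ) (v : Fin k → ℤ) : Prop :=
  ∀ e : Fin k → ℕ, (∀ i, e i ≤ K) → Finset.univ.gcd e = 1 →
    ∀ q : ℕ, q.Prime → ρ < |(q : ℝ) - ∏ i, (v i : ℝ) ^ e i|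

/-- **Pseudorandom families of residues, in boxes, meet record prime gaps in all coordinates.** -/
theorem result (k K : ℕ) (δ ε : ℝ) (hδ : δ ≤ 1) (hε : 0 < ε) :
    ∃ κ : ℝ, 0 < κ ∧ ∃ m₀ : ℕ, ∀ m : ℕ, m₀ ≤ m →
    ∀ (α : Type) (s : Finset α) (v : α → Fin k → ℤ), (∀ a ∈ s, ∀ j, 0 ≤ v a j ∧ v a j < m) →
    (∀ h : Fin k → ℤ, (∃ j, ¬ (m : ℤ) ∣ h j) →
      ‖∑ a ∈ s, Complex.exp (2 * Real.pi * Complex.I * (∑ j, h j * v a j : ℤ) / m)‖ ≤
        s.card * (m : ℝ) ^ (-δ)) →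
    ∀ (u : Fin k → ℤ) (H : Fin k → ℕ), (∀ j, 0 ≤ u j) → (∀ j, u j + H j ≤ m) →
    (m : ℝ) ^ ((k : ℝ) - δ + ε) ≤ ∏ j, (H j : ℝ) →
    (m : ℝ) ^ (-ε) * (s.card * ∏ j, ((H j : ℝ) / m)) ≤
      ((s.filter (fun a => (∀ j, u j ≤ v a j ∧ v a j < u j + H j) ∧
        FarFromPrimes K (κ * f m) (v a))).card : ℝ) :=
  Pool.Agent.W2helper60.RG.final k K δ ε hε hδ

/-- the values of the exponential sums over the modular hyperbola -/
lemma hyperbola_sum (p : ℕ) [Fact p.Prime] (c : ℤ) (hc : ¬ (p : ℤ) ∣ c) (h : Fin 2 → ℤ)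
    (hh : ∃ j, ¬ (p : ℤ) ∣ h j) :
    ‖∑ a : (ZMod p)ˣ, Complex.exp (2 * Real.pi * Complex.I * (∑ j, h j *
      (![((a : ZMod p).val : ℤ), (((c : ZMod p) * ((a⁻¹ : (ZMod p)ˣ) : ZMod p)).val : ℤ)] : Fin 2 → ℤ) j : ℤ) / p)‖ ≤
      2 * Real.sqrt p := by
  have hc0 : (c : ZMod p) ≠ 0 := by
    rw [Ne, ZMod.intCast_zmod_eq_zero_iff_dvd]
    exact hc
  have h1 : ∀ a : (ZMod p)ˣ, Complex.exp (2 * Real.pi * Complex.I * (∑ j, h j *
      (![((a : ZMod p).val : ℤ), (((c : ZMod p) * ((a⁻¹ : (ZMod p)ˣ) : ZMod p)).val : ℤ)] : Fin 2 → ℤ) j : ℤ) / p) =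
      ZMod.stdAddChar ((h 0 : ZMod p) * (a : ZMod p) + ((h 1 : ZMod p) * (c : ZMod p)) *
        ((a⁻¹ : (ZMod p)ˣ) : ZMod p)) := by
    intro a
    rw [← ZMod.stdAddChar_coe]
    congr 1
    have e : ∀ x y : ℤ, (∑ j, h j * (![x, y] : Fin 2 → ℤ) j : ℤ) = h 0 * x + h 1 * y := by
      intro x y
      rw [Fin.sum_univ_two]
      rfl
    rw [e, Int.cast_add, Int.cast_mul, Int.cast_mul, Int.cast_natCast, Int.cast_natCast,
      ZMod.natCast_zmod_val, ZMod.natCast_zmod_val, mul_assoc]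
  rw [sum_congr rfl fun a _ => h1 a]
  by_cases h2 : ((h 1 : ZMod p) * (c : ZMod p)) = 0
  · have h3 : (h 1 : ZMod p) = 0 := (mul_eq_zero.1 h2).resolve_right hc0
    have h4 : (h 0 : ZMod p) ≠ 0 := by
      intro h4
      obtain ⟨j, hj⟩ := hh
      apply hj
      rw [← ZMod.intCast_zmod_eq_zero_iff_dvd]
      fin_cases j
      · exact h4
      · exact h3
    have h5 := Pool.Agent.H442R2.KF.TaskB.Kl_prime p 0 (h 0 : ZMod p) (isUnit_iff_ne_zero.2 h4)
    refine le_trans (le_of_eq ?_) h5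
    congr 1
    unfold Pool.Agent.H442R2.KF.TaskB.Kl
    rw [h2]
    refine Fintype.sum_equiv (Equiv.inv (ZMod p)ˣ) _ _ fun a => ?_
    rw [Equiv.inv_apply, inv_inv, zero_mul, add_zero, zero_add]
  · exact Pool.Agent.H442R2.KF.TaskB.Kl_prime p (h 0 : ZMod p) _ (isUnit_iff_ne_zero.2 h2)

/-- **Points of modular hyperbolas in record gaps.** -/
theorem modular_hyperbola (K : ℕ) (ε : ℝ) (hε : 0 < ε) :
    ∃ κ : ℝ, 0 < κ ∧ ∃ p₀ : ℕ, ∀ p : ℕ, p₀ ≤ p → p.Prime → ∀ c : ℤ, ¬ (p : ℤ) ∣ c →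
    ∀ (u : Fin 2 → ℤ) (H : Fin 2 → ℕ), (∀ j, 0 ≤ u j) → (∀ j, u j + H j ≤ p) →
    (p : ℝ) ^ (3 / 2 + ε) ≤ (H 0 : ℝ) * H 1 →
    (p : ℝ) ^ (-1 - ε) * ((H 0 : ℝ) * H 1) ≤
      (((Ico (u 0) (u 0 + H 0) ×ˢ Ico (u 1) (u 1 + H 1)).filter (fun x : ℤ × ℤ =>
        (p : ℤ) ∣ x.1 * x.2 - c ∧ FarFromPrimes K (κ * f p) ![x.1, x.2])).card : ℝ) := by
  obtain ⟨ε₁, hε₁⟩ : ∃ ε₁ : ℝ, ε₁ = min ε 1 / 4 := ⟨_, rfl⟩
  have hε₁0 : 0 < ε₁ := by rw [hε₁]; positivity
  have hε₁1 : ε₁ ≤ ε / 4 := by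
    rw [hε₁]
    linarith [min_le_left ε 1]
  obtain ⟨κ, hκ, m₀, hm₀⟩ := result 2 K (1 / 2 - ε₁) (ε / 2) (by linarith) (by positivity)
  refine ⟨κ, hκ, ?_⟩
  have hev : ∀ᶠ M : ℝ in atTop, (4 : ℝ) * M ^ (0 : ℝ) ≤ M ^ ε₁ ∧ 2 * M ^ (-ε) ≤ M ^ (-(ε / 2)) ∧
      2 ≤ M :=
    ((Pool.Agent.W147.PS.ev_pow 0 ε₁ 4 hε₁0).and
      ((Pool.Agent.W147.PS.ev_pow (-ε) (-(ε / 2)) 2 (by linarith)).and (eventually_ge_atTop 2)))
  obtain ⟨M₀, hM₀⟩ := eventually_atTop.1 hev
  refine ⟨max m₀ ⌈M₀⌉₊, fun p hp hprime c hc u H hu huH hV => ?_⟩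
  have hpm : m₀ ≤ p := (le_max_left _ _).trans hp
  have hpM : M₀ ≤ (p : ℝ) := (Nat.le_ceil M₀).trans (by exact_mod_cast (le_max_right _ _).trans hp)
  obtain ⟨g1, g2, g3⟩ := hM₀ p hpM
  rw [Real.rpow_zero] at g1
  have : Fact p.Prime := ⟨hprime⟩
  have hp0 : (0 : ℝ) < p := by linarith
  have hc0 : (c : ZMod p) ≠ 0 := by
    rw [Ne, ZMod.intCast_zmod_eq_zero_iff_dvd]
    exact hc
  obtain ⟨v, hv⟩ : ∃ v : (ZMod p)ˣ → Fin 2 → ℤ, v = fun a : (ZMod p)ˣ => ![((a : ZMod p).val : ℤ),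
    (((c : ZMod p) * ((a⁻¹ : (ZMod p)ˣ) : ZMod p)).val : ℤ)] := ⟨_, rfl⟩
  have hv0 : ∀ a, v a 0 = ((a : ZMod p).val : ℤ) := fun a => by rw [hv]; rfl
  have hv1 : ∀ a, v a 1 = (((c : ZMod p) * ((a⁻¹ : (ZMod p)ˣ) : ZMod p)).val : ℤ) :=
    fun a => by rw [hv]; rfl
  have hcard : ((univ : Finset (ZMod p)ˣ).card : ℝ) = p - 1 := by
    rw [card_univ, ZMod.card_units_eq_totient, Nat.totient_prime hprime,
      Nat.cast_sub hprime.one_lt.le, Nat.cast_one]
  have h1 := hm₀ p hpm (ZMod p)ˣ univ v (by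
    intro a _
    rw [Fin.forall_fin_two, hv0, hv1]
    exact ⟨⟨Int.natCast_nonneg _, Int.ofNat_lt.2 (ZMod.val_lt _)⟩,
      ⟨Int.natCast_nonneg _, Int.ofNat_lt.2 (ZMod.val_lt _)⟩⟩) (by
    intro h hh
    rw [hv]
    refine (hyperbola_sum p c hc h hh).trans ?_
    rw [hcard]
    have e1 : Real.sqrt p = (p : ℝ) ^ (1 / 2 : ℝ) := Real.sqrt_eq_rpow _
    have e2 : (p : ℝ) ^ (-(1 / 2 - ε₁)) = (p : ℝ) ^ (-(1 / 2) : ℝ) * (p : ℝ) ^ ε₁ := by
      rw [← Real.rpow_add hp0]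
      congr 1
      ring
    have e3 : (p : ℝ) * (p : ℝ) ^ (-(1 / 2) : ℝ) = (p : ℝ) ^ (1 / 2 : ℝ) := by
      nth_rewrite 1 [← Real.rpow_one (p : ℝ)]
      rw [← Real.rpow_add hp0]
      norm_num
    rw [e1, e2]
    have e4 : 0 < (p : ℝ) ^ (-(1 / 2) : ℝ) := by positivity
    calc 2 * (p : ℝ) ^ (1 / 2 : ℝ) = (p / 2) * ((p : ℝ) ^ (-(1 / 2) : ℝ) * 4) := by rw [← e3]; ring
      _ ≤ (p - 1) * ((p : ℝ) ^ (-(1 / 2) : ℝ) * (p : ℝ) ^ ε₁) := by
          apply mul_le_mul (by linarith) _ (by positivity) (by linarith)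
          exact mul_le_mul_of_nonneg_left (by linarith) e4.le) u H hu huH (by
    rw [Fin.prod_univ_two]
    refine le_trans ?_ hV
    apply Real.rpow_le_rpow_of_exponent_le (by linarith)
    push_cast
    linarith)
  rw [hcard, Fin.prod_univ_two] at h1
  have h2 : ((univ.filter (fun a => (∀ j, u j ≤ v a j ∧ v a j < u j + H j) ∧
        FarFromPrimes K (κ * f p) (v a))).card : ℝ) ≤
      (((Ico (u 0) (u 0 + H 0) ×ˢ Ico (u 1) (u 1 + H 1)).filter (fun x : ℤ × ℤ =>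
        (p : ℤ) ∣ x.1 * x.2 - c ∧ FarFromPrimes K (κ * f p) ![x.1, x.2])).card : ℝ) := by
    have h3 : (univ.filter (fun a => (∀ j, u j ≤ v a j ∧ v a j < u j + H j) ∧
        FarFromPrimes K (κ * f p) (v a))).card ≤
      ((Ico (u 0) (u 0 + H 0) ×ˢ Ico (u 1) (u 1 + H 1)).filter (fun x : ℤ × ℤ =>
        (p : ℤ) ∣ x.1 * x.2 - c ∧ FarFromPrimes K (κ * f p) ![x.1, x.2])).card := by
      refine card_le_card_of_injOn (fun a => (v a 0, v a 1)) ?_ ?_
      · intro a ha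
        rw [mem_coe, mem_filter] at ha
        obtain ⟨-, ha1, ha2⟩ := ha
        rw [mem_coe, mem_filter, mem_product, mem_Ico, mem_Ico]
        refine ⟨⟨ha1 0, ha1 1⟩, ?_, ?_⟩
        · rw [← ZMod.intCast_zmod_eq_zero_iff_dvd]
          have h4 : (a : ZMod p) * ((a⁻¹ : (ZMod p)ˣ) : ZMod p) = 1 := a.mul_inv
          show ((v a 0 * v a 1 - c : ℤ) : ZMod p) = 0
          rw [hv0, hv1, Int.cast_sub, Int.cast_mul, Int.cast_natCast, Int.cast_natCast,
            ZMod.natCast_zmod_val, ZMod.natCast_zmod_val]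
          linear_combination (c : ZMod p) * h4
        · have h5 : ![v a 0, v a 1] = v a := by
            funext j
            fin_cases j <;> rfl
          rw [h5]
          exact ha2
      · intro a _ b _ hab
        have h4 : v a 0 = v b 0 := congrArg Prod.fst hab
        rw [hv0, hv0, Nat.cast_inj] at h4
        exact Units.ext (ZMod.val_injective p h4)
    exact_mod_cast h3
  refine le_trans ?_ (h1.trans h2)
  have hHH : 0 ≤ (H 0 : ℝ) * H 1 := by positivity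
  have e5 : (p : ℝ) ^ (-1 - ε) = (p : ℝ) ^ (-ε) / p := by
    rw [show (-1 - ε : ℝ) = -ε - 1 by ring, Real.rpow_sub hp0, Real.rpow_one]
  rw [e5]
  calc (p : ℝ) ^ (-ε) / p * ((H 0 : ℝ) * H 1) =
        (2 * (p : ℝ) ^ (-ε)) * ((p / 2) * ((H 0 : ℝ) / p * ((H 1 : ℝ) / p))) := by
        field_simp
    _ ≤ (p : ℝ) ^ (-(ε / 2)) * ((p - 1) * ((H 0 : ℝ) / p * ((H 1 : ℝ) / p))) := by
        apply mul_le_mul g2 _ (by positivity) (by positivity)
        exact mul_le_mul_of_nonneg_right (by linarith) (by positivity)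

end Pool.Agent.Results.MP_7b323f_nt.PseudorandomResidues
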